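import Pool.Agent.H7.Game

set_option autoImplicit false

namespace Pool.Agent.Results.MP_69f1cd_co.NoFourCycle

/-- Arcs of the preference graph. -/
def Arc {S T : Type} (u₁ u₂ : S → T → ℝ) (p q : S × T) : Prop :=
  (p.1 ≠ q.1 ∧ p.2 = q.2 ∧ u₁ p.1 p.2 < u₁ q.1 q.2) ∨
  (p.1 = q.1 ∧ p.2 ≠ q.2 ∧ u₂ p.1 p.2 < u₂ q.1 q.2)

/-- A strict `4 × 5` game with strongly connected preference graph and no 4-cycle. -/
theorem result : ∃ u₁ u₂ : Fin 4 → Fin 5 → ℝ,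
    (∀ s s' t, s ≠ s' → u₁ s t ≠ u₁ s' t) ∧ (∀ s t t', t ≠ t' → u₂ s t ≠ u₂ s t') ∧
    (∀ p q, Relation.ReflTransGen (Arc u₁ u₂) p q) ∧
    ¬ ∃ a b c d, Arc u₁ u₂ a b ∧ Arc u₁ u₂ b c ∧ Arc u₁ u₂ c d ∧ Arc u₁ u₂ d a := by
  have e : Arc (fun s t => (H7.Game.a1 s t : ℝ)) (fun s t => (H7.Game.a2 s t : ℝ)) =
      H7.Game.arcN := by
    funext p q
    simp only [Arc, H7.Game.arcN, Nat.cast_lt]
  refine ⟨fun s t => (H7.Game.a1 s t : ℝ), fun s t => (H7.Game.a2 s t : ℝ), ?_, ?_, ?_, ?_⟩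
  · intro s s' t h
    exact fun e => H7.Game.strict1 s s' t h (Nat.cast_injective (R := ℝ) e)
  · intro s t t' h
    exact fun e => H7.Game.strict2 s t t' h (Nat.cast_injective (R := ℝ) e)
  · rw [e]
    exact H7.Game.strong
  · rw [e]
    rintro ⟨a, b, c, d, h1, h2, h3, h4⟩
    exact H7.Game.no4 a b h1 c h2 d h3 h4

end Pool.Agent.Results.MP_69f1cd_co.NoFourCycle
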